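import Pool.Agent.helper20.NS.SpecLast
import Pool.Agent.helper4.NS.SpecNear

/-!
# Second family: the facts of the last near node
-/

namespace Pool.Agent.helper4.NS

open Complex
open Pool.Agent.helper31.IA (Z get)
open Pool.Agent.helper12.RS
open Pool.Agent.helper63.NF

/-- the registers of the last node are those of the common part -/
theorem NRS.toLR {t : TD} {e κ : ℝ} {m : ℕ} {T x T1 : ℂ} {σ : ℕ → ℂ}
    (h : NRS t e κ m T x T1 σ) : LR t e κ m T x T1 σ where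
  h0 := h.hF.ep
  h3 := h.fx
  h5 := h.lk.ie
  h7 := h.hF.k
  h11 := h.hF.qi
  h13 := h.hF.c
  h18 := h.hF.Ke
  h20 := h.hF.Ke2
  h21 := by rw [h.hF.eK, mul_comm]
  h22 := h.hF.one
  h23 := h.hF.Mi
  h30 := h.nd.l2
  h34 := h.nd.m
  h70 := h.lk.f70
  h75 := h.lk.fLQ
  h96 := h.fM
  h99 := h.fir

/-- the facts of the node -/
theorem NRS.nodePL {t : TD} {e κ : ℝ} (he : 0 < e) {m : ℕ} {T x T1 : ℂ} {σ : ℕ → ℂ}
    (h : NRS t e κ m T x T1 σ) (hM : t.tb.MT e κ m T ≠ 0) : NodeP t.tb e κ m T := by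
  refine ⟨h.nd.Qre, ?_, h.nd.pol, h.r_ne he, hM, h.nd.M1⟩
  have he0 : (e : ℂ) ≠ 0 := by exact_mod_cast he.ne'
  have h1 := ne_of_re h.lk.dre
  intro h0
  apply h1
  have h3 : t.tb.c m * (T * e) + 1 = (((1 / e : ℝ) : ℂ) + t.tb.c m * T) * e := by
    push_cast
    field_simp
    ring
  rw [h3, h0, zero_mul]

/-- the facts of the link -/
theorem NRS.stepPL {t : TD} {e κ : ℝ} {m : ℕ} {T x T1 : ℂ} {σ : ℕ → ℂ}
    (h : NRS t e κ m T x T1 σ) (hre : 0 < ((Real.cosh κ : ℂ) + T1).re) :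
    StepP t.tb e κ (dS t (m + 1) e κ) (t.Y (m + 1) e) m T x T1 :=
  ⟨h.lk.F, h.lk.g, h.lk.S, hre, h.TK1, h.disp, h.cut⟩

/-- **The last near node.** -/
theorem lastS_pt {t : TD} (hok : t.ok = true) (hl : t.Okl) (hf : 2 ≤ t.far) {e κ : ℝ} (he : 0 < e)
    (hκ : 0 < κ) (hst : t.strip = true → κ ≤ 1 / 4) {m : ℕ}
    {σ : ℕ → ℂ} {Q : (ℕ → ℂ) → Prop} {T x : ℂ} (h0 : σ 0 = ((1 / e : ℝ) : ℂ))
    (h1 : σ 1 = ((e * κ / 2 : ℝ) : ℂ)) (h2 : σ 2 = T * e) (h3 : σ 3 = x)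
    (h : Sem (PSl t (m + 1)) σ Q) : ∃ T1 σ1, NRS t e κ m T x T1 σ1 ∧
      StepP t.tb e κ (dS t (m + 1) e κ) (t.Y (m + 1) e) m T x T1 ∧
      ∀ Q' Q1 Q2 q2 q3 : ℂ, Q' = (Real.cosh κ : ℂ) + T1 →
      Q1 = 2 * (Real.cosh κ : ℂ) - Q'⁻¹ → Q2 = 2 * (Real.cosh κ : ℂ) - Q1⁻¹ →
      q2 = Q1 ^ (-(e : ℂ)) → q3 = Q2 ^ (-(e : ℂ)) →
      ‖q3‖ ≤ (t.B1 : ℝ) / 2 ^ 40 * ‖1 + q3‖ ∧ 1 + q3 ≠ 0 ∧
      ∀ f2 χ : ℂ, ‖f2 - 1 / (1 + q3)‖ ≤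
        (1 + 1 / (2 * (t.x0 + 2))) / (1 - (t.B1 : ℝ) / 2 ^ 40 / (t.x0 + 2)) *
        (e * ‖(Q2 - (Real.cosh κ : ℂ)) ^ 2 - (Real.sinh κ : ℂ) ^ 2‖) * ‖q3‖ / ‖1 + q3‖ ^ 3 →
        ‖χ‖ ≤ t.A e κ * Real.sinh κ * Real.exp (-(κ * t.x0)) / Real.sinh (κ * (t.x0 + 1)) *
          ‖(Q' - (Real.exp (-κ) : ℂ)) / Q'‖ →
        ‖x - t.tb.MT e κ m T * (x - (1 - exp (CL (t.tb.lT e κ T) - (e : ℂ) * log Q') *
          (1 - q2 * f2 * (1 - χ))) / t.tb.rT e κ m T)‖ < θ0 := by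
  rw [PSl_eq] at h
  have h := sem_append _ _ _ h
  obtain ⟨σ1, T1, h, hR⟩ := nerS_spec hok he hκ h0 h1 h2 h3 h
  obtain ⟨hre, hC⟩ := lastS_spec hl hf he hκ hst hR.toLR h
  exact ⟨T1, σ1, hR, hR.stepPL hre, hC⟩

/-- **Last near nodes.** -/
theorem lastPS_of {t : TD} (hok : t.ok = true) (hl : t.Okl) (hf : 2 ≤ t.far) {e κ : ℝ} (he : 0 < e)
    (hκ : 0 < κ) (hst : t.strip = true → κ ≤ 1 / 4) {m : ℕ} {T : ℂ}
    (h : ∀ x : ℂ, ‖x‖ ≤ 1 → ∃ σ : ℕ → ℂ, σ 0 = ((1 / e : ℝ) : ℂ) ∧ σ 1 = ((e * κ / 2 : ℝ) : ℂ) ∧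
      σ 2 = T * e ∧ σ 3 = x ∧ Sem (PSl t (m + 1)) σ fun _ => True) :
    LastP t.tb e κ θ0 (dS t (m + 1) e κ) (t.Y (m + 1) e) (t.A e κ) t.x0 ((t.B1 : ℝ) / 2 ^ 40) m T := by
  refine ⟨?_, ?_⟩
  · obtain ⟨σ, h0, h1, h2, h3, hs⟩ := h 1 (by simp)
    obtain ⟨T1, σ1, hR, hS, hC⟩ := lastS_pt hok hl hf he hκ hst h0 h1 h2 h3 hs
    refine hR.nodePL he ?_
    intro hM
    obtain ⟨-, -, h5⟩ := hC _ _ _ _ _ rfl rfl rfl rfl rfl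
    have h6 := h5 (1 / (1 + _)) 0 (by
      rw [sub_self, norm_zero]
      have g1 := hl.b1
      have g2 := hl.x2
      have g3 : 0 < t.x0 + 2 := by
        have : t.x0 + 2 = rv t.x2 / 2 + 1 := by unfold TD.x0; ring
        rw [this]
        positivity
      have g4 : 0 < 1 - (t.B1 : ℝ) / 2 ^ 40 / (t.x0 + 2) := by
        rw [sub_pos, div_lt_one g3]
        exact g1
      positivity) (by
      rw [norm_zero]
      have g2 := hl.x2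
      have g3 : 0 < t.x0 + 1 := by
        have : t.x0 + 1 = rv t.x2 / 2 := by unfold TD.x0; ring
        rw [this]
        positivity
      have g4 := Real.sinh_pos_iff.2 (mul_pos hκ g3)
      have g5 := TD.A_nonneg hl he hκ
      have g6 := Real.sinh_pos_iff.2 hκ
      positivity)
    rw [hM, zero_mul, sub_zero, norm_one] at h6
    exact absurd (h6.trans θ0_lt) (lt_irrefl _)
  · intro x hx
    obtain ⟨σ, h0, h1, h2, h3, hs⟩ := h x hx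
    obtain ⟨T1, σ1, hR, hS, hC⟩ := lastS_pt hok hl hf he hκ hst h0 h1 h2 h3 hs
    exact ⟨T1, hS, hC⟩

end Pool.Agent.helper4.NS
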