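import Pool.Agent.helper63.NF.SpecFar
import Pool.Agent.helper4.NS.Prog

/-!
# Second family: meaning of the far constants in the program of the last near node
-/

namespace Pool.Agent.helper4.NS

open Complex
open Pool.Agent.helper31.IA (Z get)
open Pool.Agent.helper12.RS
open Pool.Agent.helper63.NF

/-- **The far constant**, divided by `e`. -/
theorem frS_spec {t : TD} {e κ : ℝ} (he : 0 < e) (hfar : 2 ≤ t.far) {σ : ℕ → ℂ}
    {Q : (ℕ → ℂ) → Prop} (h18 : σ 18 = (Real.sinh κ : ℂ) * e)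
    (h : Sem (frS t) σ Q) : ∃ τ, Q τ ∧ (∀ i, i < 105 ∨ 107 ≤ i → τ i = σ i) ∧
      τ 105 = ((t.A e κ / e : ℝ) : ℂ) := by
  have hen : e ≠ 0 := he.ne'
  unfold frS at h
  unfold TD.A
  generalize t.far = k at h hfar ⊢
  rcases k with _ | _ | _ | _ | _
  · omega
  · omega
  · obtain ⟨-, h⟩ := sem_set h (x := ((rv t.f1 * e / e : ℝ) : ℂ)) (by
      rw [mul_div_cancel_right₀ _ hen]
      simp only [E.ev, zi_val, cv_rv])
    exact ⟨_, h, fun i hi => upd_ne (by omega) _, upd_same _ _⟩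
  · obtain ⟨-, h⟩ := sem_set h (x := ((Real.sinh κ * e + 4 : ℝ) : ℂ)) (by
      simp only [E.ev, four_val, h18]
      push_cast
      ring)
    obtain ⟨-, -, h⟩ := h
    obtain ⟨-, h⟩ := sem_set h (x := ((2 * e * (Real.sinh κ * e + 4)⁻¹ / e : ℝ) : ℂ)) (by
      have e1 : 2 * e * (Real.sinh κ * e + 4)⁻¹ / e = 2 * (Real.sinh κ * e + 4)⁻¹ := by
        field_simp
      rw [e1]
      simp only [E.ev, upd, Nat.reduceEqDiff, reduceIte, two_val]
      push_cast
      ring)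
    exact ⟨_, h, fun i hi => by rw [upd_ne (by omega), upd_ne (by omega)], upd_same _ _⟩
  · obtain ⟨-, h⟩ := sem_set h (x := ((Real.sinh κ * e + 4 : ℝ) : ℂ)) (by
      simp only [E.ev, four_val, h18]
      push_cast
      ring)
    obtain ⟨-, -, h⟩ := h
    obtain ⟨-, h⟩ := sem_set h (x := ((e * (Real.sinh κ * e + 4)⁻¹ / e : ℝ) : ℂ)) (by
      have e1 : e * (Real.sinh κ * e + 4)⁻¹ / e = (Real.sinh κ * e + 4)⁻¹ := by
        field_simp
      rw [e1]
      simp only [E.ev, upd, Nat.reduceEqDiff, reduceIte]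
      push_cast
      ring)
    exact ⟨_, h, fun i hi => by rw [upd_ne (by omega), upd_ne (by omega)], upd_same _ _⟩

/-- **The displacement of the far field**, divided by `e`. -/
theorem xrS_spec {t : TD} (ht : t.Okl) {e κ : ℝ} (he : 0 < e) (hκ : 0 < κ)
    (hst : t.strip = true → κ ≤ 1 / 4) {σ : ℕ → ℂ} {Q : (ℕ → ℂ) → Prop}
    (h0 : σ 0 = ((1 / e : ℝ) : ℂ)) (h7 : σ 7 = (κ : ℂ)) (h18 : σ 18 = (Real.sinh κ : ℂ) * e)
    (h22 : σ 22 = 1) (hA : σ 105 = ((t.A e κ / e : ℝ) : ℂ)) (h : Sem (xrS t) σ Q) :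
    ∃ τ, Q τ ∧ (∀ i, i < 107 ∨ 111 ≤ i → τ i = σ i) ∧
      t.A e κ / e * (2 * Real.sinh κ) / (Real.exp (rv t.x2 * κ) - 1) ≤ ‖τ 110‖ := by
  have hA0 : 0 ≤ t.A e κ / e := div_nonneg (TD.A_nonneg ht he hκ) he.le
  have hx := ht.x2
  obtain ⟨A, hAd⟩ : ∃ A, A = t.A e κ / e := ⟨_, rfl⟩
  rw [← hAd] at hA hA0 ⊢
  have hz : 0 < rv t.x2 * κ := mul_pos hx hκ
  unfold xrS at h
  cases hs : t.strip with
  | false =>
    rw [hs, cond_false] at h
    obtain ⟨-, h⟩ := sem_set h (x := ((Real.exp (rv t.x2 * κ) - 1 : ℝ) : ℂ)) (by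
      simp only [E.ev, zi_val, cv_rv, h7, h22]
      push_cast
      rfl)
    obtain ⟨-, -, h⟩ := h
    obtain ⟨-, h⟩ := sem_set h
        (x := ((A * (2 * Real.sinh κ) / (Real.exp (rv t.x2 * κ) - 1) : ℝ) : ℂ)) (by
      have hen : (e : ℂ) ≠ 0 := by exact_mod_cast he.ne'
      simp only [E.ev, upd, Nat.reduceEqDiff, reduceIte, two_val, h0, h18, hA]
      push_cast
      field_simp)
    refine ⟨_, h, fun i hi => by rw [upd_ne (by omega), upd_ne (by omega)], ?_⟩
    rw [upd_same, Complex.norm_real]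
    exact le_abs_self _
  | true =>
    rw [hs, cond_true] at h
    obtain ⟨-, h⟩ := sem_set h (x := ((rv t.x2 * κ : ℝ) : ℂ)) (by
      simp only [E.ev, zi_val, cv_rv, h7]
      push_cast
      rfl)
    obtain ⟨z, hzd⟩ : ∃ z, z = rv t.x2 * κ := ⟨_, rfl⟩
    rw [← hzd] at h hz ⊢
    obtain ⟨-, h⟩ := sem_set h
        (x := ((rv t.f3 * (184351450112 / 2 ^ 40 * κ ^ 2 + 1) : ℝ) : ℂ)) (by
      simp only [E.ev, upd, Nat.reduceEqDiff, reduceIte, zi_val, h7, h22]
      rw [cv_rv t.f3, cv]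
      push_cast
      ring)
    obtain ⟨-, h⟩ := sem_set h
        (x := ((((183251937280 / 2 ^ 40 * z + 1 / 2) * z + 1 : ℝ)) : ℂ)) (by
      simp only [E.ev, upd, Nat.reduceEqDiff, reduceIte, zi_val, h22]
      rw [show cv 549755813888 = 1 / 2 by rw [cv]; norm_num, cv]
      push_cast
      ring)
    obtain ⟨D, hD⟩ : ∃ D, D = (183251937280 / 2 ^ 40 * z + 1 / 2) * z + 1 := ⟨_, rfl⟩
    rw [← hD] at h
    obtain ⟨-, p1, h⟩ := h
    have Dpos : 0 < D := by
      rw [hD]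
      positivity
    obtain ⟨-, h⟩ := sem_set h
        (x := ((A * (rv t.f3 * (184351450112 / 2 ^ 40 * κ ^ 2 + 1)) * D⁻¹ : ℝ) : ℂ)) (by
      simp only [E.ev, upd, Nat.reduceEqDiff, reduceIte, hA]
      push_cast
      ring)
    refine ⟨_, h, fun i hi => by
      rw [upd_ne (by omega), upd_ne (by omega), upd_ne (by omega), upd_ne (by omega)], ?_⟩
    rw [upd_same, Complex.norm_real]
    refine le_trans ?_ (le_abs_self _)
    have g1 := sinh_le hκ (hst hs)
    have g2 := exp_ge hz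
    rw [← hD] at g2
    have g3 := ht.f3 hs
    have hc : 0 < 184351450112 / 2 ^ 40 * κ ^ 2 + 1 := by positivity
    obtain ⟨c, hcd⟩ : ∃ c, c = 184351450112 / 2 ^ 40 * κ ^ 2 + 1 := ⟨_, rfl⟩
    rw [← hcd] at g1 hc ⊢
    have hzD : 0 < z * D := mul_pos hz Dpos
    calc A * (2 * Real.sinh κ) / (Real.exp z - 1) ≤ A * (2 * (κ * c)) / (z * D) := by
          apply div_le_div₀ (by positivity) _ hzD g2
          exact mul_le_mul_of_nonneg_left (mul_le_mul_of_nonneg_left g1 zero_le_two) hA0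
      _ ≤ A * (rv t.f3 * c) * D⁻¹ := by
          rw [div_le_iff₀ hzD]
          have e1 : A * (rv t.f3 * c) * D⁻¹ * (z * D) = A * (rv t.f3 * rv t.x2) * (c * κ) := by
            rw [hzd]
            field_simp
          rw [e1]
          have : A * (2 * (κ * c)) = A * 2 * (c * κ) := by ring
          rw [this]
          exact mul_le_mul_of_nonneg_right (mul_le_mul_of_nonneg_left g3 hA0) (by positivity)

end Pool.Agent.helper4.NS
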