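import Pool.Agent.helper20.NS.SpecFar
import Pool.Agent.helper63.NF.SpecLast

/-!
# Second family: meaning of the program of the last near node
-/

namespace Pool.Agent.helper4.NS

open Complex
open Pool.Agent.helper31.IA (Z get)
open Pool.Agent.helper12.RS
open Pool.Agent.helper63.NF

/-- the statements after the common part -/
def lastM (t : TD) : List St :=
  [.set 80 (.add (.mul (.r 0) (.r 70)) (.r 13)), .pos (.r 80),
   .set 81 (.mul (.inv (.r 80)) (.add (.mul (.r 13) (.r 70)) (.r 21))),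
   .set 82 (.add (.mul (.r 0) (.r 81)) (.r 13)), .pos (.r 82),
   .set 83 (.mul (.inv (.r 82)) (.add (.mul (.r 13) (.r 81)) (.r 21))),
   .set 84 (.add (.mul (.r 0) (.r 83)) (.r 13)), .set 85 (.mul (.r 82) (.r 11)), .pos (.r 85),
   .set 86 (.mul (.r 23) (.exp (.neg (.mul (.log (.r 85)) (.r 5))))),
   .set 87 (.mul (.r 84) (.r 11)), .pos (.r 87),
   .set 88 (.mul (.r 23) (.exp (.neg (.mul (.log (.r 87)) (.r 5))))),
   .set 89 (.add (.r 88) (.r 22)), .pos (.r 89),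
   .set 90 (.inv (.r 89)), .set 91 (.mul (.r 88) (.r 90)), .lt (.r 91) t.B1,
   .set 92 (.sc (zi t.C2) (.mul (.mul (.r 0) (.sub (.mul (.r 83) (.r 83)) (.r 20)))
     (.mul (.r 91) (.mul (.r 90) (.r 90)))))]

/-- the final statements -/
def lastF (t : TD) (n : ℕ) : List St :=
  [.set 111 (.mul (.r 110) (.add (.r 81) (.r 18))), .set 112 (.sub (.add (.r 30) (.r 34)) (.r 75)),
   .set 113 (.add (.sub (.r 88) (.r 86)) (.r 22)), .pos (.r 113),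
   .set 114 (.exp (.add (.r 112) (.sub (.log (.r 113)) (.log (.r 89))))),
   .set 115 (.sc (scZ t n) (.mul (.mul (.exp (.r 112)) (.r 86)) (.r 96))),
   .set 116 (.add (.mul (.r 3) (.sub (.r 22) (.r 96)))
     (.mul (.r 96) (.mul (.sc (scZ t n) (.sub (.r 22) (.r 114))) (.r 99)))),
   .rball 117 (.c (zi 0)) (.mul (.mul (.r 115) (.r 90)) (.mul (.r 111) (.r 99))),
   .rball 118 (.c (zi 0)) (.r 111),
   .rball 119 (.c (zi 0)) (.mul (.mul (.mul (.r 115) (.r 92)) (.r 99)) (.add (.r 118) (.r 22))),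
   .lt (.add (.add (.r 116) (.r 117)) (.r 119)) TH]

theorem PSl_eq (t : TD) (n : ℕ) :
    PSl t n = nerS t n ++ (lastM t ++ (frS t ++ (xrS t ++ lastF t n))) := by
  unfold PSl lastM lastF
  simp only [List.append_assoc]

/-- the registers used by the last node -/
structure LR (t : TD) (e κ : ℝ) (m : ℕ) (T x T1 : ℂ) (σ : ℕ → ℂ) : Prop where
  h0 : σ 0 = ((1 / e : ℝ) : ℂ)
  h3 : σ 3 = x
  h5 : σ 5 = (e : ℂ)
  h7 : σ 7 = (κ : ℂ)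
  h11 : σ 11 = (Real.exp (-κ) : ℂ)
  h13 : σ 13 = (Real.cosh κ : ℂ)
  h18 : σ 18 = (Real.sinh κ : ℂ) * e
  h20 : σ 20 = ((Real.sinh κ : ℂ) * e) ^ 2
  h21 : σ 21 = (e : ℂ) * (Real.sinh κ : ℂ) ^ 2
  h22 : σ 22 = 1
  h23 : σ 23 = (Real.exp (-(e * κ)) : ℂ)
  h30 : σ 30 = t.tb.lT e κ T - ((e * κ : ℝ) : ℂ)
  h34 : σ 34 = lc (t.tb.lT e κ T)
  h70 : σ 70 = T1 * e
  h75 : σ 75 = (e : ℂ) * log ((Real.cosh κ : ℂ) + T1) - ((e * κ : ℝ) : ℂ)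
  h96 : σ 96 = t.tb.MT e κ m T
  h99 : σ 99 * t.s2 (m + 1) = (t.tb.rT e κ m T)⁻¹

theorem LR.of_eq {t : TD} {e κ : ℝ} {m : ℕ} {T x T1 : ℂ} {σ τ : ℕ → ℂ}
    (h : LR t e κ m T x T1 σ) (h1 : ∀ i, (i < 80 ∨ i = 96 ∨ i = 99) → τ i = σ i) :
    LR t e κ m T x T1 τ := by
  refine ⟨?_, ?_, ?_, ?_, ?_, ?_, ?_, ?_, ?_, ?_, ?_, ?_, ?_, ?_, ?_, ?_, ?_⟩
  · rw [h1 _ (by omega), h.h0]
  · rw [h1 _ (by omega), h.h3]
  · rw [h1 _ (by omega), h.h5]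
  · rw [h1 _ (by omega), h.h7]
  · rw [h1 _ (by omega), h.h11]
  · rw [h1 _ (by omega), h.h13]
  · rw [h1 _ (by omega), h.h18]
  · rw [h1 _ (by omega), h.h20]
  · rw [h1 _ (by omega), h.h21]
  · rw [h1 _ (by omega), h.h22]
  · rw [h1 _ (by omega), h.h23]
  · rw [h1 _ (by omega), h.h30]
  · rw [h1 _ (by omega), h.h34]
  · rw [h1 _ (by omega), h.h70]
  · rw [h1 _ (by omega), h.h75]
  · rw [h1 _ (by omega), h.h96]
  · rw [h1 _ (by omega), h.h99]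

/-- the registers after `lastM` -/
structure FS (t : TD) (e κ : ℝ) (Q1 Q2 q2 q3 : ℂ) (σ : ℕ → ℂ) : Prop where
  f81 : σ 81 = (Q1 - (Real.cosh κ : ℂ)) * e
  f86 : σ 86 = q2
  f88 : σ 88 = q3
  f89 : σ 89 = 1 + q3
  f90 : σ 90 = (1 + q3)⁻¹
  re : 0 < (1 + q3).re
  lt : ‖q3 * (1 + q3)⁻¹‖ < (t.B1 : ℝ) / 2 ^ 40
  f92 : σ 92 = (rv t.C2 : ℂ) * (((Q2 - (Real.cosh κ : ℂ)) ^ 2 - (Real.sinh κ : ℂ) ^ 2) * e *
    (q3 * (1 + q3)⁻¹ * (1 + q3)⁻¹ * (1 + q3)⁻¹))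

/-- one shift of the scaled state -/
private theorem shf_sc {κ e : ℝ} {Q' Q1 S1 : ℂ} (hQ : Q' ≠ 0)
    (h1 : Q1 = 2 * (Real.cosh κ : ℂ) - Q'⁻¹) (hS : S1 = (Q' - (Real.cosh κ : ℂ)) * e) :
    Q'⁻¹ * ((Real.cosh κ : ℂ) * S1 + (e : ℂ) * (Real.sinh κ : ℂ) ^ 2) =
      (Q1 - (Real.cosh κ : ℂ)) * e := by
  have h3 : (Real.cosh κ : ℂ) ^ 2 - (Real.sinh κ : ℂ) ^ 2 = 1 := by
    have := Real.cosh_sq κ
    exact_mod_cast (by linarith : Real.cosh κ ^ 2 - Real.sinh κ ^ 2 = 1)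
  have h2 : Q'⁻¹ * Q' = 1 := inv_mul_cancel₀ hQ
  rw [hS, h1]
  linear_combination (Real.cosh κ : ℂ) * e * h2 - Q'⁻¹ * e * h3

private theorem un_sc {e : ℝ} (he : 0 < e) {S z c : ℂ} (h : S = (z - c) * e) :
    ((1 / e : ℝ) : ℂ) * S + c = z := by
  have hen : (e : ℂ) ≠ 0 := by exact_mod_cast he.ne'
  rw [h]
  push_cast
  field_simp
  ring

theorem lastM_spec {t : TD} {e κ : ℝ} (he : 0 < e) {m : ℕ} {σ : ℕ → ℂ} {Q : (ℕ → ℂ) → Prop}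
    {T x T1 Q' Q1 Q2 q2 q3 : ℂ}
    (hR : LR t e κ m T x T1 σ) (hQ' : Q' = (Real.cosh κ : ℂ) + T1)
    (hQ1 : Q1 = 2 * (Real.cosh κ : ℂ) - Q'⁻¹) (hQ2 : Q2 = 2 * (Real.cosh κ : ℂ) - Q1⁻¹)
    (hq2 : q2 = Q1 ^ (-(e : ℂ))) (hq3 : q3 = Q2 ^ (-(e : ℂ)))
    (h : Sem (lastM t) σ Q) : ∃ τ, Q τ ∧ (∀ i, i < 80 ∨ 93 ≤ i → τ i = σ i) ∧
      0 < Q'.re ∧ FS t e κ Q1 Q2 q2 q3 τ := by
  have e0 := hR.h0
  have e5 := hR.h5
  have e11 := hR.h11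
  have e13 := hR.h13
  have e20 := hR.h20
  have e21 := hR.h21
  have e22 := hR.h22
  have e23 := hR.h23
  have e70 : σ 70 = (Q' - (Real.cosh κ : ℂ)) * e := by rw [hR.h70, hQ']; ring
  obtain ⟨-, h⟩ := sem_set h (x := Q') (by
    show σ 0 * σ 70 + σ 13 = _
    rw [e0, e13]
    exact un_sc he e70)
  obtain ⟨-, p1, h⟩ := h
  have Qre : 0 < Q'.re := p1
  have Qne := ne_of_re Qre
  obtain ⟨-, h⟩ := sem_set h (x := (Q1 - (Real.cosh κ : ℂ)) * e) (by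
    simp only [E.ev, upd, Nat.reduceEqDiff, reduceIte]
    rw [e13, e21]
    exact shf_sc Qne hQ1 e70)
  obtain ⟨-, h⟩ := sem_set h (x := Q1) (by
    simp only [E.ev, upd, Nat.reduceEqDiff, reduceIte]
    rw [e0, e13]
    exact un_sc he rfl)
  obtain ⟨-, p2, h⟩ := h
  have Q1re : 0 < Q1.re := p2
  have Q1ne := ne_of_re Q1re
  obtain ⟨-, h⟩ := sem_set h (x := (Q2 - (Real.cosh κ : ℂ)) * e) (by
    simp only [E.ev, upd, Nat.reduceEqDiff, reduceIte]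
    rw [e13, e21]
    exact shf_sc Q1ne hQ2 rfl)
  obtain ⟨-, h⟩ := sem_set h (x := Q2) (by
    simp only [E.ev, upd, Nat.reduceEqDiff, reduceIte]
    rw [e0, e13]
    exact un_sc he rfl)
  obtain ⟨-, h⟩ := sem_set h (x := Q1 * (Real.exp (-κ) : ℂ)) (by simp [E.ev, upd, e11])
  obtain ⟨-, -, h⟩ := h
  obtain ⟨-, h⟩ := sem_set h (x := q2) (by
    rw [hq2, ← pow_eq Q1ne (e := e) (κ := κ)]
    simp only [E.ev, upd, Nat.reduceEqDiff, reduceIte]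
    rw [e23, e5])
  obtain ⟨-, h⟩ := sem_set h (x := Q2 * (Real.exp (-κ) : ℂ)) (by simp [E.ev, upd, e11])
  obtain ⟨-, p3, h⟩ := h
  have Q2re : 0 < (Q2 * (Real.exp (-κ) : ℂ)).re := p3
  have Q2ne : Q2 ≠ 0 := left_ne_zero_of_mul (ne_of_re Q2re)
  obtain ⟨-, h⟩ := sem_set h (x := q3) (by
    rw [hq3, ← pow_eq Q2ne (e := e) (κ := κ)]
    simp only [E.ev, upd, Nat.reduceEqDiff, reduceIte]
    rw [e23, e5])
  obtain ⟨-, h⟩ := sem_set h (x := 1 + q3) (by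
    simp only [E.ev, upd, Nat.reduceEqDiff, reduceIte]
    rw [e22, add_comm])
  obtain ⟨-, p4, h⟩ := h
  have q3re : 0 < (1 + q3).re := p4
  obtain ⟨-, h⟩ := sem_set h (x := (1 + q3)⁻¹) (by simp [E.ev, upd])
  obtain ⟨-, h⟩ := sem_set h (x := q3 * (1 + q3)⁻¹) (by
    simp only [E.ev, upd, Nat.reduceEqDiff, reduceIte])
  obtain ⟨-, p5, h⟩ := h
  obtain ⟨-, h⟩ := sem_set h
      (x := (rv t.C2 : ℂ) * (((Q2 - (Real.cosh κ : ℂ)) ^ 2 - (Real.sinh κ : ℂ) ^ 2) * e *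
      (q3 * (1 + q3)⁻¹ * (1 + q3)⁻¹ * (1 + q3)⁻¹))) (by
    have hen : (e : ℂ) ≠ 0 := by exact_mod_cast he.ne'
    simp only [E.ev, upd, Nat.reduceEqDiff, reduceIte, zi_val, cv_rv]
    rw [e20, e0]
    have : ((1 / e : ℝ) : ℂ) * ((Q2 - (Real.cosh κ : ℂ)) * e * ((Q2 - (Real.cosh κ : ℂ)) * e) -
        ((Real.sinh κ : ℂ) * e) ^ 2) =
        ((Q2 - (Real.cosh κ : ℂ)) ^ 2 - (Real.sinh κ : ℂ) ^ 2) * e := by
      push_cast
      field_simp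
    rw [this]
    ring)
  refine ⟨_, h, ?_, Qre, ?_⟩
  · intro i hi
    repeat rw [upd_ne (by omega)]
  · refine ⟨?_, ?_, ?_, ?_, ?_, q3re, ?_, ?_⟩
    · simp [upd]
    · simp [upd]
    · simp [upd]
    · simp [upd]
    · simp [upd]
    · exact p5
    · simp [upd]

/-- the closing of the last near node -/
theorem lastS_spec {t : TD} (hl : t.Okl) (hfar : 2 ≤ t.far) {e κ : ℝ} (he : 0 < e) (hκ : 0 < κ)
    (hst : t.strip = true → κ ≤ 1 / 4) {m : ℕ} {σ : ℕ → ℂ} {Q : (ℕ → ℂ) → Prop} {T x T1 : ℂ}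
    (hR : LR t e κ m T x T1 σ)
    (h : Sem (lastM t ++ (frS t ++ (xrS t ++ lastF t (m + 1)))) σ Q) :
    0 < ((Real.cosh κ : ℂ) + T1).re ∧
      ∀ Q' Q1 Q2 q2 q3 : ℂ, Q' = (Real.cosh κ : ℂ) + T1 →
      Q1 = 2 * (Real.cosh κ : ℂ) - Q'⁻¹ → Q2 = 2 * (Real.cosh κ : ℂ) - Q1⁻¹ →
      q2 = Q1 ^ (-(e : ℂ)) → q3 = Q2 ^ (-(e : ℂ)) →
      ‖q3‖ ≤ (t.B1 : ℝ) / 2 ^ 40 * ‖1 + q3‖ ∧ 1 + q3 ≠ 0 ∧
      ∀ f2 χ : ℂ, ‖f2 - 1 / (1 + q3)‖ ≤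
        (1 + 1 / (2 * (t.x0 + 2))) / (1 - (t.B1 : ℝ) / 2 ^ 40 / (t.x0 + 2)) *
        (e * ‖(Q2 - (Real.cosh κ : ℂ)) ^ 2 - (Real.sinh κ : ℂ) ^ 2‖) * ‖q3‖ / ‖1 + q3‖ ^ 3 →
        ‖χ‖ ≤ t.A e κ * Real.sinh κ * Real.exp (-(κ * t.x0)) / Real.sinh (κ * (t.x0 + 1)) *
          ‖(Q' - (Real.exp (-κ) : ℂ)) / Q'‖ →
        ‖x - t.tb.MT e κ m T * (x - (1 - exp (CL (t.tb.lT e κ T) - (e : ℂ) * log Q') *
          (1 - q2 * f2 * (1 - χ))) / t.tb.rT e κ m T)‖ < θ0 := by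
  have h := sem_append _ _ _ h
  obtain ⟨Q', hQ'⟩ : ∃ Q, Q = (Real.cosh κ : ℂ) + T1 := ⟨_, rfl⟩
  obtain ⟨Q1, hQ1⟩ : ∃ Q, Q = 2 * (Real.cosh κ : ℂ) - Q'⁻¹ := ⟨_, rfl⟩
  obtain ⟨Q2, hQ2⟩ : ∃ Q, Q = 2 * (Real.cosh κ : ℂ) - Q1⁻¹ := ⟨_, rfl⟩
  obtain ⟨q2, hq2⟩ : ∃ Q, Q = Q1 ^ (-(e : ℂ)) := ⟨_, rfl⟩
  obtain ⟨q3, hq3⟩ : ∃ Q, Q = Q2 ^ (-(e : ℂ)) := ⟨_, rfl⟩
  obtain ⟨σ3, h, f3, Qre, hFR⟩ := lastM_spec he hR hQ' hQ1 hQ2 hq2 hq3 h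
  have hR3 : LR t e κ m T x T1 σ3 := hR.of_eq fun i hi => f3 i (by omega)
  have h := sem_append _ _ _ h
  obtain ⟨σ2, h, f2', hA⟩ := frS_spec he hfar hR3.h18 h
  have hR2 : LR t e κ m T x T1 σ2 := hR3.of_eq fun i hi => f2' i (by omega)
  have h := sem_append _ _ _ h
  obtain ⟨σ4, h, f4, hX⟩ := xrS_spec hl he hκ hst hR2.h0 hR2.h7 hR2.h18 hR2.h22 hA h
  have hR4 : LR t e κ m T x T1 σ4 := hR2.of_eq fun i hi => f4 i (by omega)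
  have Qne := ne_of_re Qre
  refine ⟨by rw [← hQ']; exact Qre, ?_⟩
  intro Q'a Q1a Q2a q2a q3a ha1 ha2 ha3 ha4 ha5
  rw [← hQ'] at ha1
  subst ha1
  rw [← hQ1] at ha2
  subst ha2
  rw [← hQ2] at ha3
  subst ha3
  rw [← hq2] at ha4
  subst ha4
  rw [← hq3] at ha5
  subst ha5
  have hne := ne_of_re hFR.re
  have hnp : 0 < ‖1 + q3a‖ := norm_pos_iff.2 hne
  refine ⟨?_, hne, ?_⟩
  · have h5 := hFR.lt
    rw [norm_mul, norm_inv, ← div_eq_mul_inv, div_lt_iff₀ hnp] at h5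
    exact h5.le
  intro f2 χ hf2 hχ
  -- the registers
  have key : ∀ i, 80 ≤ i → i < 93 → σ4 i = σ3 i := fun i _ hi => by
    rw [f4 i (by omega), f2' i (by omega)]
  have n30 := hR4.h30
  have n34 := hR4.h34
  have n3 := hR4.h3
  have n75 := hR4.h75
  have n96 := hR4.h96
  have n99 := hR4.h99
  have n18 := hR4.h18
  have n22 := hR4.h22
  have n81 : σ4 81 = (Q1a - (Real.cosh κ : ℂ)) * e := by
    rw [key 81 (by omega) (by omega)]; exact hFR.f81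
  have n86 : σ4 86 = q2a := by rw [key 86 (by omega) (by omega)]; exact hFR.f86
  have n88 : σ4 88 = q3a := by rw [key 88 (by omega) (by omega)]; exact hFR.f88
  have n89 : σ4 89 = 1 + q3a := by rw [key 89 (by omega) (by omega)]; exact hFR.f89
  have n90 : σ4 90 = (1 + q3a)⁻¹ := by rw [key 90 (by omega) (by omega)]; exact hFR.f90
  have n92 := hFR.f92
  rw [← key 92 (by omega) (by omega)] at n92
  obtain ⟨s, hs⟩ : ∃ s, s = t.s2 (m + 1) := ⟨_, rfl⟩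
  obtain ⟨r, hr⟩ : ∃ r, r = t.tb.rT e κ m T := ⟨_, rfl⟩
  obtain ⟨M, hMd⟩ : ∃ M, M = t.tb.MT e κ m T := ⟨_, rfl⟩
  obtain ⟨l, hld⟩ : ∃ l, l = t.tb.lT e κ T := ⟨_, rfl⟩
  have hsv : (scZ t (m + 1)).val = s := by
    rw [hs]
    exact zn_val _
  rw [← hs, ← hr] at n99
  rw [← hMd] at n96
  rw [← hld] at n30 n34
  rw [← hMd, ← hr, ← hld]
  -- `χ`
  obtain ⟨w, hw⟩ : ∃ w, w = σ4 110 * (e * ((Real.exp κ : ℂ) - Q'a⁻¹)) := ⟨_, rfl⟩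
  obtain ⟨-, h⟩ := sem_set h (x := w) (by
    show σ4 110 * (σ4 81 + σ4 18) = _
    rw [n81, n18, hw, ← c_K κ, hQ1]
    ring)
  have hχ' : ‖χ‖ ≤ ‖w‖ := by
    refine hχ.trans ?_
    have hx0 : 2 * (t.x0 + 1) = rv t.x2 := by
      unfold TD.x0
      ring
    have hz : 0 < κ * (t.x0 + 1) := by
      have := hl.x2
      rw [← hx0] at this
      exact mul_pos hκ (by linarith)
    have hsh := Real.sinh_pos_iff.2 hz
    have e1 : Real.exp (rv t.x2 * κ) - 1 = 2 * Real.sinh (κ * (t.x0 + 1)) *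
        Real.exp (κ * (t.x0 + 1)) := by
      rw [Real.sinh_eq, ← hx0]
      have e2 : Real.exp (2 * (t.x0 + 1) * κ) = Real.exp (κ * (t.x0 + 1)) * Real.exp (κ * (t.x0 + 1)) := by
        rw [← Real.exp_add]
        congr 1
        ring
      have e3 : Real.exp (-(κ * (t.x0 + 1))) * Real.exp (κ * (t.x0 + 1)) = 1 := by
        rw [← Real.exp_add, neg_add_cancel, Real.exp_zero]
      rw [e2]
      linear_combination e3
    have e4 : (Real.exp κ : ℂ) - Q'a⁻¹ = (Real.exp κ : ℂ) * ((Q'a - (Real.exp (-κ) : ℂ)) / Q'a) := by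
      have := exp_qi κ
      field_simp
      linear_combination this
    have e5 : t.A e κ * Real.sinh κ * Real.exp (-(κ * t.x0)) / Real.sinh (κ * (t.x0 + 1)) =
        t.A e κ / e * (2 * Real.sinh κ) / (Real.exp (rv t.x2 * κ) - 1) * (e * Real.exp κ) := by
      rw [e1]
      have e6 : Real.exp (-(κ * t.x0)) * Real.exp (κ * (t.x0 + 1)) = Real.exp κ := by
        rw [← Real.exp_add]
        congr 1
        ring
      have h8 := (Real.exp_pos (κ * (t.x0 + 1))).ne'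
      rw [← e6]
      field_simp
    rw [hw, norm_mul, e4, norm_mul, norm_mul, Complex.norm_real, Complex.norm_real,
      Real.norm_of_nonneg (Real.exp_pos κ).le, Real.norm_of_nonneg he.le, e5]
    have h9 : 0 ≤ e * Real.exp κ * ‖(Q'a - (Real.exp (-κ) : ℂ)) / Q'a‖ := by positivity
    calc _ = t.A e κ / e * (2 * Real.sinh κ) / (Real.exp (rv t.x2 * κ) - 1) *
          (e * Real.exp κ * ‖(Q'a - (Real.exp (-κ) : ℂ)) / Q'a‖) := by ring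
      _ ≤ ‖σ4 110‖ * (e * Real.exp κ * ‖(Q'a - (Real.exp (-κ) : ℂ)) / Q'a‖) :=
          mul_le_mul_of_nonneg_right hX h9
      _ = _ := by ring
  obtain ⟨s99, hs99⟩ : ∃ z, z = σ4 99 := ⟨_, rfl⟩
  rw [← hs99] at n99
  obtain ⟨Lq, hLq⟩ : ∃ L, L = (e : ℂ) * log Q'a := ⟨_, rfl⟩
  rw [← hQ', ← hLq] at n75
  rw [← hLq]
  obtain ⟨-, h⟩ := sem_set h (x := CL l - Lq) (by
    simp only [E.ev, upd, Nat.reduceEqDiff, reduceIte]
    rw [n30, n34, n75]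
    unfold CL
    ring)
  obtain ⟨-, h⟩ := sem_set h (x := q3a - q2a + 1) (by
    simp only [E.ev, upd, Nat.reduceEqDiff, reduceIte]
    rw [n88, n86, n22])
  obtain ⟨-, p1, h⟩ := h
  have re1 : 0 < (q3a - q2a + 1).re := p1
  obtain ⟨W, hW⟩ : ∃ W, W = exp (CL l - Lq) := ⟨_, rfl⟩
  obtain ⟨-, h⟩ := sem_set h (x := W * (1 - q2a * (1 + q3a)⁻¹)) (by
    simp only [E.ev, upd, Nat.reduceEqDiff, reduceIte]
    rw [n89, Complex.exp_add, ← hW, Complex.exp_sub, Complex.exp_log (ne_of_re re1),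
      Complex.exp_log hne]
    field_simp
    ring)
  obtain ⟨-, h⟩ := sem_set h (x := s * (W * q2a * M)) (by
    simp only [E.ev, upd, Nat.reduceEqDiff, reduceIte]
    rw [hsv, n86, n96, ← hW])
  obtain ⟨-, h⟩ := sem_set h (x := x * (1 - M) + M * (s * (1 - W * (1 - q2a * (1 + q3a)⁻¹)) * s99)) (by
    simp only [E.ev, upd, Nat.reduceEqDiff, reduceIte]
    rw [hsv, n3, n96, n22, ← hs99])
  obtain ⟨-, -, h⟩ := h
  obtain ⟨b115, hb115⟩ : ∃ z, z = -(s * (W * q2a * M) * (1 + q3a)⁻¹ * (χ * s99)) := ⟨_, rfl⟩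
  have h := h b115 (by
    simp only [E.ev, upd, Nat.reduceEqDiff, reduceIte]
    rw [zz_val, sub_zero, n90, ← hs99, hb115, norm_neg, norm_mul, norm_mul _ (w * s99), norm_mul χ,
      norm_mul w]
    exact mul_le_mul_of_nonneg_left (mul_le_mul_of_nonneg_right hχ' (norm_nonneg _)) (norm_nonneg _))
  obtain ⟨-, -, h⟩ := h
  have h := h (-χ) (by
    simp only [E.ev, upd, Nat.reduceEqDiff, reduceIte]
    rw [zz_val, sub_zero, norm_neg]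
    exact hχ')
  obtain ⟨-, -, h⟩ := h
  obtain ⟨z92, hz92⟩ : ∃ z, z = σ4 92 := ⟨_, rfl⟩
  rw [← hz92] at n92
  have hδ : ‖f2 - (1 + q3a)⁻¹‖ ≤ ‖z92‖ := by
    rw [one_div] at hf2
    refine hf2.trans ?_
    rw [n92, norm_mul, norm_mul, norm_mul, Complex.norm_real, Complex.norm_real, norm_mul, norm_mul,
      norm_mul, norm_inv, Real.norm_of_nonneg he.le]
    have g1 := hl.c2
    have g2 : (1 + 1 / (2 * (t.x0 + 2))) / (1 - (t.B1 : ℝ) / 2 ^ 40 / (t.x0 + 2)) ≤ ‖rv t.C2‖ :=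
      g1.trans (le_abs_self _)
    obtain ⟨C, hC⟩ : ∃ C, C = (1 + 1 / (2 * (t.x0 + 2))) / (1 - (t.B1 : ℝ) / 2 ^ 40 / (t.x0 + 2)) :=
      ⟨_, rfl⟩
    rw [← hC] at g2 ⊢
    have e9 : C * (e * ‖(Q2a - (Real.cosh κ : ℂ)) ^ 2 - (Real.sinh κ : ℂ) ^ 2‖) * ‖q3a‖ /
        ‖1 + q3a‖ ^ 3 = C * (‖(Q2a - (Real.cosh κ : ℂ)) ^ 2 - (Real.sinh κ : ℂ) ^ 2‖ * e *
          (‖q3a‖ * ‖1 + q3a‖⁻¹ * ‖1 + q3a‖⁻¹ * ‖1 + q3a‖⁻¹)) := by
      field_simp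
    rw [e9]
    exact mul_le_mul_of_nonneg_right g2 (by positivity)
  have h := h (s * (W * q2a * M) * (f2 - (1 + q3a)⁻¹) * s99 * (-χ + 1)) (by
    simp only [E.ev, upd, Nat.reduceEqDiff, reduceIte]
    rw [zz_val, sub_zero, n22, ← hz92, ← hs99, norm_mul, norm_mul, norm_mul, norm_mul _ (-χ + 1),
      norm_mul _ s99, norm_mul (s * (W * q2a * M)) z92]
    exact mul_le_mul_of_nonneg_right (mul_le_mul_of_nonneg_right
      (mul_le_mul_of_nonneg_left hδ (norm_nonneg _)) (norm_nonneg _)) (norm_nonneg _))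
  obtain ⟨-, p3, -⟩ := h
  simp only [E.ev, upd, Nat.reduceEqDiff, reduceIte] at p3
  have e10 : x - M * (x - (1 - W * (1 - q2a * f2 * (1 - χ))) / r) =
      x * (1 - M) + M * (s * (1 - W * (1 - q2a * (1 + q3a)⁻¹)) * s99) + b115 +
        s * (W * q2a * M) * (f2 - (1 + q3a)⁻¹) * s99 * (-χ + 1) := by
    rw [hb115, div_eq_mul_inv, ← n99]
    ring
  rw [← hW, e10]
  exact p3

end Pool.Agent.helper4.NS
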